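import Mathlib

open Finset

namespace Pool.H248.Sahi

variable {ι : Type*} [DecidableEq ι]

/-- If `w` satisfies the block recursion `w (insert i R) = - Σ_{B ⊆ R} |B|! r(insert i B) w (R \ B)`,
then `Σ_{B ⊆ D} |B|! r(B) w(D \ B) = (1 - |D|) w(D)`. (Sum the recursion over `i ∈ D`;
a set `C = insert i B` of size `k` arises for its `k` elements `i`, and `k * (k-1)! = k!`.) -/
theorem sum_factorial (r w : Finset ι → ℝ) (hr : r ∅ = 1)
    (hw : ∀ (R : Finset ι) (i : ι), i ∉ R →
      w (insert i R) = - ∑ B ∈ R.powerset, ((B.card).factorial : ℝ) * r (insert i B) * w (R \ B))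
    (D : Finset ι) :
    ∑ B ∈ D.powerset, ((B.card).factorial : ℝ) * r B * w (D \ B) = (1 - (D.card : ℝ)) * w D := by
  classical
  have key : ∀ i ∈ D, w D = - ∑ C ∈ D.powerset with i ∈ C,
      (((C.card - 1).factorial : ℕ) : ℝ) * r C * w (D \ C) := by
    intro i hi
    have h1 := hw (D.erase i) i (Finset.notMem_erase i D)
    rw [Finset.insert_erase hi] at h1
    rw [h1]
    congr 1
    refine Finset.sum_nbij' (fun B => insert i B) (fun C => C.erase i) ?_ ?_ ?_ ?_ ?_
    · intro B hB
      rw [Finset.mem_powerset] at hB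
      rw [Finset.mem_filter, Finset.mem_powerset]
      refine ⟨?_, Finset.mem_insert_self _ _⟩
      exact Finset.insert_subset hi (hB.trans (Finset.erase_subset _ _))
    · intro C hC
      rw [Finset.mem_filter, Finset.mem_powerset] at hC
      rw [Finset.mem_powerset]
      exact Finset.erase_subset_erase _ hC.1
    · intro B hB
      rw [Finset.mem_powerset] at hB
      exact Finset.erase_insert (fun h => Finset.notMem_erase i D (hB h))
    · intro C hC
      rw [Finset.mem_filter, Finset.mem_powerset] at hC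
      exact Finset.insert_erase hC.2
    · intro B hB
      rw [Finset.mem_powerset] at hB
      have hiB : i ∉ B := fun h => Finset.notMem_erase i D (hB h)
      have e1 : D.erase i \ B = D \ insert i B := by
        ext x
        simp only [Finset.mem_sdiff, Finset.mem_erase, Finset.mem_insert]
        tauto
      rw [Finset.card_insert_of_notMem hiB, Nat.add_sub_cancel, e1]
  have h2 : (D.card : ℝ) * w D = - ∑ C ∈ D.powerset,
      (C.card : ℝ) * ((((C.card - 1).factorial : ℕ) : ℝ) * r C * w (D \ C)) := by
    have h3 : (D.card : ℝ) * w D = ∑ i ∈ D, w D := by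
      rw [Finset.sum_const, nsmul_eq_mul]
    rw [h3, Finset.sum_congr rfl key, Finset.sum_neg_distrib]
    congr 1
    rw [Finset.sum_comm' (t' := D.powerset) (s' := fun C => C)]
    · apply Finset.sum_congr rfl
      intro C _
      rw [Finset.sum_const, nsmul_eq_mul]
    · intro i C
      rw [Finset.mem_filter, Finset.mem_powerset]
      constructor
      · rintro ⟨_, h, h'⟩
        exact ⟨h', h⟩
      · rintro ⟨h, h'⟩
        exact ⟨h' h, h', h⟩
  have h4 : ∀ C ∈ D.powerset, ((C.card).factorial : ℝ) * r C * w (D \ C) =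
      (C.card : ℝ) * ((((C.card - 1).factorial : ℕ) : ℝ) * r C * w (D \ C)) +
        if C = ∅ then w D else 0 := by
    intro C _
    by_cases hC : C = ∅
    · subst hC
      simp [hr]
    · rw [if_neg hC, add_zero]
      have h5 : 0 < C.card := Finset.card_pos.2 (Finset.nonempty_iff_ne_empty.2 hC)
      have h6 : ((C.card).factorial : ℝ) = (C.card : ℝ) * (((C.card - 1).factorial : ℕ) : ℝ) := by
        rw [← Nat.mul_factorial_pred h5.ne']
        push_cast
        rfl
      rw [h6]
      ring
  rw [Finset.sum_congr rfl h4, Finset.sum_add_distrib]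
  have h7 : ∑ C ∈ D.powerset, (if C = ∅ then w D else 0) = w D := by
    rw [Finset.sum_ite_eq' D.powerset ∅ (fun _ => w D), if_pos (Finset.empty_mem_powerset D)]
  rw [h7]
  linarith

theorem sum_swap (b c v : Finset ι → ℝ) (R : Finset ι) :
    ∑ B ∈ R.powerset, b B * ∑ C ∈ (R \ B).powerset, c C * v ((R \ B) \ C) =
    ∑ C ∈ R.powerset, c C * ∑ B ∈ (R \ C).powerset, b B * v ((R \ C) \ B) := by
  simp only [Finset.mul_sum]
  rw [Finset.sum_comm' (t' := R.powerset) (s' := fun C => (R \ C).powerset)]
  · apply Finset.sum_congr rfl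
    intro C _
    apply Finset.sum_congr rfl
    intro B _
    rw [sdiff_right_comm R B C]
    ring
  · intro B C
    simp only [Finset.mem_powerset, Finset.subset_sdiff]
    constructor
    · rintro ⟨h1, h2, h3⟩
      exact ⟨⟨h1, h3.symm⟩, h2⟩
    · rintro ⟨⟨h1, h3⟩, h2⟩
      exact ⟨h1, h2, h3.symm⟩

end Pool.H248.Sahi
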