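import Mathlib

open Finset

namespace Pool.H248.Sahi

variable {ι : Type*} [DecidableEq ι]

theorem so_term (r w : Finset ι → ℝ) (hpos : ∀ B, 0 < r B)
    (R : Finset ι) (g : Finset ι → ℝ) (gR : ℝ) (hgR : g R = gR)
    (hle : ∀ B ⊆ R, g B * r R ≤ gR * r B) (ih : ∀ D ⊆ R, D.Nonempty → w D ≤ 0)
    (B : Finset ι) (hB : B ⊆ R) : gR / r R * r B * w (R \ B) ≤ g B * w (R \ B) := by
  have hR := hpos R
  by_cases hBR : R \ B = ∅
  · have : B = R := Finset.Subset.antisymm hB (Finset.sdiff_eq_empty_iff_subset.mp hBR)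
    subst this
    have h1 : gR / r B * r B = g B := by
      rw [div_mul_cancel₀ _ hR.ne', hgR]
    rw [h1]
  · have hne : (R \ B).Nonempty := Finset.nonempty_iff_ne_empty.mpr hBR
    have hw : w (R \ B) ≤ 0 := ih _ Finset.sdiff_subset hne
    refine mul_le_mul_of_nonpos_right ?_ hw
    have h1 := hle B hB
    rw [div_mul_eq_mul_div, le_div_iff₀ hR]
    exact h1

theorem so_sign (w : Finset ι → ℝ) (hw0 : w ∅ = 1) (R : Finset ι)
    (ih : ∀ D ⊆ R, D.Nonempty → w D ≤ 0) (D : Finset ι) (hD : D ⊆ R) :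
    0 ≤ (1 - (D.card : ℝ)) * w D := by
  rcases Finset.eq_empty_or_nonempty D with rfl | hne
  · rw [hw0]; simp
  · have h1 := ih D hD hne
    have h2 : (1 : ℝ) ≤ D.card := by exact_mod_cast Finset.card_pos.mpr hne
    exact mul_nonneg_of_nonpos_of_nonpos (by linarith) h1

/-- one step, one arbitrary index `i` -/
theorem step_one (r w : Finset ι → ℝ) (hr : r ∅ = 1) (hpos : ∀ B, 0 < r B) (hw0 : w ∅ = 1)
    (hw : ∀ (R : Finset ι) (i : ι), i ∉ R →
      w (insert i R) = - ∑ B ∈ R.powerset, ((B.card).factorial : ℝ) * r (insert i B) * w (R \ B))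
    (hsum : ∀ D : Finset ι,
      ∑ B ∈ D.powerset, ((B.card).factorial : ℝ) * r B * w (D \ B) = (1 - (D.card : ℝ)) * w D)
    (R : Finset ι) (i : ι) (hi : i ∉ R)
    (hle : ∀ B ⊆ R, r (insert i B) * r R ≤ r (insert i R) * r B)
    (ih : ∀ D ⊆ R, D.Nonempty → w D ≤ 0) :
    w (insert i R) ≤ 0 := by
  have hR := hpos R
  have hq : 0 < r (insert i R) / r R := div_pos (hpos _) hR
  rw [hw R i hi]
  have h1 : (r (insert i R) / r R) * ((1 - (R.card : ℝ)) * w R) ≤
      ∑ B ∈ R.powerset, ((B.card).factorial : ℝ) * r (insert i B) * w (R \ B) := by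
    rw [← hsum R, Finset.mul_sum]
    refine Finset.sum_le_sum fun B hB => ?_
    have hB' := Finset.mem_powerset.mp hB
    have h2 := so_term r w hpos R (fun B => r (insert i B)) _ rfl hle ih B hB'
    have h3 : (0 : ℝ) ≤ ((B.card).factorial : ℝ) := Nat.cast_nonneg _
    have h4 := mul_le_mul_of_nonneg_left h2 h3
    calc r (insert i R) / r R * (((B.card).factorial : ℝ) * r B * w (R \ B))
        = ((B.card).factorial : ℝ) * (r (insert i R) / r R * r B * w (R \ B)) := by ring
      _ ≤ ((B.card).factorial : ℝ) * (r (insert i B) * w (R \ B)) := h4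
      _ = _ := by ring
  have h5 := so_sign w hw0 R ih R (Finset.Subset.refl R)
  have h6 := mul_nonneg hq.le h5
  linarith

/-- one step, two arbitrary indices `i, j`.

Proof. Let `q = r(R∪{i,j})/r(R)`, `a = r(R∪i)/r(R)`, `b = r(R∪j)/r(R)`, so `a*b ≤ q`, and for
`B ⊆ R`: `r(B∪{i,j}) ≤ q r(B)`, `r(B∪i) ≤ a r(B)`, `r(B∪j) ≤ b r(B)`, with equality for `B = R`.
The recursion at `i` for the set `insert i (insert j R)`, splitting the powerset of `insert j R`
(`Finset.sum_powerset_insert`), gives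
`w(R∪{i,j}) = -Σ_{B⊆R} |B|! r(B∪i) w(insert j (R\B)) - Σ_{B⊆R} (|B|+1)! r(B∪{i,j}) w(R\B)`.
Second sum: `w(R\B) ≤ 0` for `B ≠ R`, equality for `B = R`, so
`-Σ (|B|+1)! r(B∪{i,j}) w(R\B) ≤ -q Σ (|B|+1)! r(B) w(R\B)`.
First sum: `w(insert j (R\B)) ≤ 0` by `ihj`, so it is `≤ -a Σ |B|! r(B) w(insert j (R\B))
= a Σ_B |B|! r(B) Σ_{C⊆R\B} |C|! r(C∪j) w(R\B\C)  (recursion at j)
= a Σ_{C⊆R} |C|! r(C∪j) Σ_{B⊆R\C} |B|! r(B) w(R\C\B)   (sum_swap)
= a Σ_{C⊆R} |C|! r(C∪j) (1-|R\C|) w(R\C)   (hsum)`; every `(1-|R\C|) w(R\C)` is `≥ 0`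
(it is `1` for `C = R`, `0` if `|R\C| = 1`, and both factors are `≤ 0` otherwise), so it is
`≤ a b Σ_C |C|! r(C) (1-|R\C|) w(R\C) ≤ q Σ_C |C|! r(C) (1-|R\C|) w(R\C)`.
Total: `w(R∪{i,j}) ≤ q Σ_B |B|! r(B) w(R\B) (1-|R\B| - (|B|+1)) = -q |R| Σ_B |B|! r(B) w(R\B)
= -q |R| (1-|R|) w(R) ≤ 0`. -/
theorem step_two (r w : Finset ι → ℝ) (hr : r ∅ = 1) (hpos : ∀ B, 0 < r B) (hw0 : w ∅ = 1)
    (hw : ∀ (R : Finset ι) (i : ι), i ∉ R →
      w (insert i R) = - ∑ B ∈ R.powerset, ((B.card).factorial : ℝ) * r (insert i B) * w (R \ B))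
    (hsum : ∀ D : Finset ι,
      ∑ B ∈ D.powerset, ((B.card).factorial : ℝ) * r B * w (D \ B) = (1 - (D.card : ℝ)) * w D)
    (sum_swap : ∀ (b c v : Finset ι → ℝ) (R : Finset ι),
      ∑ B ∈ R.powerset, b B * ∑ C ∈ (R \ B).powerset, c C * v ((R \ B) \ C) =
      ∑ C ∈ R.powerset, c C * ∑ B ∈ (R \ C).powerset, b B * v ((R \ C) \ B))
    (R : Finset ι) (i j : ι) (hij : i ≠ j) (hi : i ∉ R) (hj : j ∉ R)
    (hlei : ∀ B ⊆ R, r (insert i B) * r R ≤ r (insert i R) * r B)
    (hlej : ∀ B ⊆ R, r (insert j B) * r R ≤ r (insert j R) * r B)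
    (hleij : ∀ B ⊆ R, r (insert i (insert j B)) * r R ≤ r (insert i (insert j R)) * r B)
    (hq : r (insert i R) * r (insert j R) ≤ r (insert i (insert j R)) * r R)
    (ih : ∀ D ⊆ R, D.Nonempty → w D ≤ 0)
    (ihj : ∀ D ⊆ R, w (insert j D) ≤ 0) :
    w (insert i (insert j R)) ≤ 0 := by
  have hR := hpos R
  have hij' : i ∉ insert j R := by
    rw [Finset.mem_insert]
    rintro (h | h)
    · exact hij h
    · exact hi h
  set q : ℝ := r (insert i (insert j R)) / r R with hqd
  set a : ℝ := r (insert i R) / r R with had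
  set b : ℝ := r (insert j R) / r R with hbd
  have hq0 : 0 < q := div_pos (hpos _) hR
  have ha0 : 0 < a := div_pos (hpos _) hR
  have hb0 : 0 < b := div_pos (hpos _) hR
  have hab : a * b ≤ q := by
    rw [had, hbd, hqd, div_mul_div_comm, div_le_div_iff₀ (mul_pos hR hR) hR]
    nlinarith
  rw [hw (insert j R) i hij', Finset.sum_powerset_insert hj]
  have e1 : ∑ B ∈ R.powerset, ((B.card).factorial : ℝ) * r (insert i B) * w (insert j R \ B) =
      ∑ B ∈ R.powerset, ((B.card).factorial : ℝ) * r (insert i B) * w (insert j (R \ B)) := by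
    refine Finset.sum_congr rfl fun B hB => ?_
    have hB' := Finset.mem_powerset.mp hB
    rw [Finset.insert_sdiff_of_notMem _ (fun h => hj (hB' h))]
  have e2 : ∑ B ∈ R.powerset, (((insert j B).card).factorial : ℝ) * r (insert i (insert j B)) *
      w (insert j R \ insert j B) =
      ∑ B ∈ R.powerset, (((B.card : ℝ) + 1) * ((B.card).factorial : ℝ)) * r (insert i (insert j B)) *
        w (R \ B) := by
    refine Finset.sum_congr rfl fun B hB => ?_
    have hB' := Finset.mem_powerset.mp hB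
    have hjB : j ∉ B := fun h => hj (hB' h)
    have e3 : insert j R \ insert j B = R \ B := by
      ext x
      simp only [Finset.mem_sdiff, Finset.mem_insert, not_or]
      constructor
      · rintro ⟨h1 | h1, h2, h3⟩
        · exact absurd h1 h2
        · exact ⟨h1, h3⟩
      · rintro ⟨h1, h2⟩
        exact ⟨Or.inr h1, fun h => hj (h ▸ h1), h2⟩
    rw [e3, Finset.card_insert_of_notMem hjB, Nat.factorial_succ]
    push_cast
    ring
  rw [e1, e2]
  -- second sum
  have h2 : q * ∑ B ∈ R.powerset, (((B.card : ℝ) + 1) * ((B.card).factorial : ℝ)) * r B * w (R \ B) ≤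
      ∑ B ∈ R.powerset, (((B.card : ℝ) + 1) * ((B.card).factorial : ℝ)) * r (insert i (insert j B)) *
        w (R \ B) := by
    rw [Finset.mul_sum]
    refine Finset.sum_le_sum fun B hB => ?_
    have hB' := Finset.mem_powerset.mp hB
    have h2 := so_term r w hpos R (fun B => r (insert i (insert j B))) _ rfl hleij ih B hB'
    have h3 : (0 : ℝ) ≤ ((B.card : ℝ) + 1) * ((B.card).factorial : ℝ) := by positivity
    have h4 := mul_le_mul_of_nonneg_left h2 h3
    calc q * ((((B.card : ℝ) + 1) * ((B.card).factorial : ℝ)) * r B * w (R \ B))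
        = (((B.card : ℝ) + 1) * ((B.card).factorial : ℝ)) * (q * r B * w (R \ B)) := by ring
      _ ≤ (((B.card : ℝ) + 1) * ((B.card).factorial : ℝ)) *
          (r (insert i (insert j B)) * w (R \ B)) := h4
      _ = _ := by ring
  -- first sum
  set U : ℝ := ∑ C ∈ R.powerset, ((C.card).factorial : ℝ) * r C *
    ((1 - ((R \ C).card : ℝ)) * w (R \ C)) with hU
  have hU0 : 0 ≤ U := Finset.sum_nonneg fun C _ => mul_nonneg
    (mul_nonneg (Nat.cast_nonneg _) (hpos C).le) (so_sign w hw0 R ih _ Finset.sdiff_subset)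
  have h1a : a * ∑ B ∈ R.powerset, ((B.card).factorial : ℝ) * r B * w (insert j (R \ B)) ≤
      ∑ B ∈ R.powerset, ((B.card).factorial : ℝ) * r (insert i B) * w (insert j (R \ B)) := by
    rw [Finset.mul_sum]
    refine Finset.sum_le_sum fun B hB => ?_
    have hB' := Finset.mem_powerset.mp hB
    have hwj : w (insert j (R \ B)) ≤ 0 := ihj _ Finset.sdiff_subset
    have h3 : r (insert i B) ≤ a * r B := by
      rw [had, div_mul_eq_mul_div, le_div_iff₀ hR]
      exact hlei B hB'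
    have h4 := mul_le_mul_of_nonpos_right h3 hwj
    have h5 := mul_le_mul_of_nonneg_left h4 (Nat.cast_nonneg (B.card).factorial : (0 : ℝ) ≤ _)
    calc a * (((B.card).factorial : ℝ) * r B * w (insert j (R \ B)))
        = ((B.card).factorial : ℝ) * (a * r B * w (insert j (R \ B))) := by ring
      _ ≤ ((B.card).factorial : ℝ) * (r (insert i B) * w (insert j (R \ B))) := h5
      _ = _ := by ring
  have h1b : ∑ B ∈ R.powerset, ((B.card).factorial : ℝ) * r B * w (insert j (R \ B)) =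
      - ∑ C ∈ R.powerset, ((C.card).factorial : ℝ) * r (insert j C) *
        ((1 - ((R \ C).card : ℝ)) * w (R \ C)) := by
    have e4 : ∀ B ∈ R.powerset, ((B.card).factorial : ℝ) * r B * w (insert j (R \ B)) =
        - ((((B.card).factorial : ℝ) * r B) * ∑ C ∈ (R \ B).powerset,
          (((C.card).factorial : ℝ) * r (insert j C)) * w ((R \ B) \ C)) := by
      intro B hB
      rw [hw (R \ B) j (fun h => hj (Finset.mem_sdiff.mp h).1)]
      ring
    rw [Finset.sum_congr rfl e4, Finset.sum_neg_distrib,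
      sum_swap (fun B => ((B.card).factorial : ℝ) * r B)
        (fun C => ((C.card).factorial : ℝ) * r (insert j C)) w R]
    congr 1
    refine Finset.sum_congr rfl fun C _ => ?_
    rw [hsum (R \ C)]
  have h1c : ∑ C ∈ R.powerset, ((C.card).factorial : ℝ) * r (insert j C) *
        ((1 - ((R \ C).card : ℝ)) * w (R \ C)) ≤ b * U := by
    rw [hU, Finset.mul_sum]
    refine Finset.sum_le_sum fun C hC => ?_
    have hC' := Finset.mem_powerset.mp hC
    have h3 : r (insert j C) ≤ b * r C := by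
      rw [hbd, div_mul_eq_mul_div, le_div_iff₀ hR]
      exact hlej C hC'
    have hs := so_sign w hw0 R ih (R \ C) Finset.sdiff_subset
    have h4 := mul_le_mul_of_nonneg_right h3 hs
    have h5 := mul_le_mul_of_nonneg_left h4 (Nat.cast_nonneg (C.card).factorial : (0 : ℝ) ≤ _)
    calc ((C.card).factorial : ℝ) * r (insert j C) * ((1 - ((R \ C).card : ℝ)) * w (R \ C))
        = ((C.card).factorial : ℝ) * (r (insert j C) * ((1 - ((R \ C).card : ℝ)) * w (R \ C))) := by
          ring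
      _ ≤ ((C.card).factorial : ℝ) * (b * r C * ((1 - ((R \ C).card : ℝ)) * w (R \ C))) := h5
      _ = _ := by ring
  rw [h1b] at h1a
  have h1d : a * (b * U) ≤ q * U := by
    rw [← mul_assoc]
    exact mul_le_mul_of_nonneg_right hab hU0
  have h1e := mul_le_mul_of_nonneg_left h1c ha0.le
  -- total
  have htot : ∑ B ∈ R.powerset, (((B.card : ℝ) + 1) * ((B.card).factorial : ℝ)) * r B * w (R \ B) - U =
      R.card * ((1 - (R.card : ℝ)) * w R) := by
    rw [← hsum R, hU, ← Finset.sum_sub_distrib, Finset.mul_sum]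
    refine Finset.sum_congr rfl fun B hB => ?_
    have hB' := Finset.mem_powerset.mp hB
    have hcard : ((R \ B).card : ℝ) = R.card - B.card := by
      rw [Finset.card_sdiff_of_subset hB', Nat.cast_sub (Finset.card_le_card hB')]
    rw [hcard]
    ring
  have hfin : 0 ≤ (R.card : ℝ) * ((1 - (R.card : ℝ)) * w R) :=
    mul_nonneg (Nat.cast_nonneg _) (so_sign w hw0 R ih R (Finset.Subset.refl R))
  rw [← htot] at hfin
  have h7 := mul_nonneg hq0.le hfin
  rw [mul_sub] at h7
  linarith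

end Pool.H248.Sahi
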