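import Mathlib
import Pool.Agent.H248.Sahi.L2
import Pool.Agent.H248.Sahi.L3

open Finset

namespace Pool.H248.Sahi

variable {ι : Type*} [DecidableEq ι]

/-- **Core theorem**: a set function that is log-supermodular except at meets touching `J`,
`|J| ≤ 2`, has nonpositive partition sums. -/
theorem core (r w : Finset ι → ℝ) (hr : r ∅ = 1) (hpos : ∀ B, 0 < r B) (hw0 : w ∅ = 1)
    (hw : ∀ (R : Finset ι) (i : ι), i ∉ R →
      w (insert i R) = - ∑ B ∈ R.powerset, ((B.card).factorial : ℝ) * r (insert i B) * w (R \ B))
    (J : Finset ι) (hJ : J.card ≤ 2)
    (hls : ∀ B C : Finset ι, Disjoint (B ∩ C) J → r B * r C ≤ r (B ∪ C) * r (B ∩ C))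
    (A : Finset ι) (hA : A.Nonempty) : w A ≤ 0 := by
  have hsum := sum_factorial r w hr hw
  induction A using Finset.strongInduction with
  | H A ih =>
    -- general consequence: for `S` disjoint from `R` and `R` disjoint from `J`
    have key : ∀ (S R B : Finset ι), Disjoint S R → Disjoint R J → B ⊆ R →
        r (S ∪ B) * r R ≤ r (S ∪ R) * r B := by
      intro S R B hSR hRJ hBR
      have h1 : (S ∪ B) ∩ R = B := by
        rw [Finset.union_inter_distrib_right, Finset.disjoint_iff_inter_eq_empty.1 hSR,
          Finset.empty_union, Finset.inter_eq_left.2 hBR]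
      have h2 : (S ∪ B) ∪ R = S ∪ R := by
        rw [Finset.union_assoc, Finset.union_eq_right.2 hBR]
      have := hls (S ∪ B) R (by rw [h1]; exact Finset.disjoint_of_subset_left hBR hRJ)
      rw [h1, h2] at this
      exact this
    have key1 : ∀ (i : ι) (R : Finset ι), i ∉ R → Disjoint R J → ∀ B ⊆ R,
        r (insert i B) * r R ≤ r (insert i R) * r B := by
      intro i R hi hRJ B hBR
      have := key {i} R B (Finset.disjoint_singleton_left.2 hi) hRJ hBR
      rw [Finset.insert_eq, Finset.insert_eq i R]
      exact this
    by_cases hJA : (J ∩ A).card ≤ 1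
    · -- pick i
      obtain ⟨i, hiA, hiJ⟩ : ∃ i ∈ A, Disjoint (A.erase i) J := by
        by_cases he : J ∩ A = ∅
        · obtain ⟨i, hi⟩ := hA
          refine ⟨i, hi, ?_⟩
          rw [Finset.disjoint_left]
          intro x hx hxJ
          have : x ∈ J ∩ A := Finset.mem_inter.2 ⟨hxJ, Finset.mem_of_mem_erase hx⟩
          rw [he] at this
          simp at this
        · obtain ⟨i, hi⟩ := Finset.nonempty_iff_ne_empty.2 he
          refine ⟨i, (Finset.mem_inter.1 hi).2, ?_⟩
          rw [Finset.disjoint_left]
          intro x hx hxJ
          have hx' : x ∈ J ∩ A := Finset.mem_inter.2 ⟨hxJ, Finset.mem_of_mem_erase hx⟩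
          have := Finset.card_le_one.1 hJA x hx' i hi
          exact Finset.ne_of_mem_erase hx this
      have hins : insert i (A.erase i) = A := Finset.insert_erase hiA
      have := step_one r w hr hpos hw0 hw hsum (A.erase i) i (Finset.notMem_erase i A)
        (key1 i _ (Finset.notMem_erase i A) hiJ)
        (fun D hD hDn => ih D (lt_of_le_of_lt hD (Finset.erase_ssubset hiA)) hDn)
      rwa [hins] at this
    · have hc2 : 2 ≤ (J ∩ A).card := by omega
      have hJAe : J ∩ A = J := Finset.eq_of_subset_of_card_le Finset.inter_subset_left (by omega)
      have hJsub : J ⊆ A := Finset.inter_eq_left.1 hJAe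
      have hJ2 : J.card = 2 := by rw [hJAe] at hc2; omega
      obtain ⟨i, j, hij, rfl⟩ := Finset.card_eq_two.1 hJ2
      have hiA : i ∈ A := hJsub (by simp)
      have hjA : j ∈ A := hJsub (by simp)
      set R := (A.erase i).erase j with hR
      have hjR : j ∉ R := Finset.notMem_erase j _
      have hiR : i ∉ R := fun h => Finset.notMem_erase i A (Finset.mem_of_mem_erase h)
      have hjAi : j ∈ A.erase i := Finset.mem_erase.2 ⟨fun h => hij h.symm, hjA⟩
      have hinsj : insert j R = A.erase i := Finset.insert_erase hjAi
      have hins : insert i (insert j R) = A := by rw [hinsj]; exact Finset.insert_erase hiA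
      have hRJ : Disjoint R {i, j} := by
        rw [Finset.disjoint_right]
        intro x hx
        simp only [Finset.mem_insert, Finset.mem_singleton] at hx
        rcases hx with rfl | rfl
        · exact hiR
        · exact hjR
      have hRA : R ⊂ A := lt_of_le_of_lt (Finset.erase_subset j _) (Finset.erase_ssubset hiA)
      have := step_two r w hr hpos hw0 hw hsum sum_swap R i j hij hiR hjR
        (key1 i R hiR hRJ) (key1 j R hjR hRJ)
        (by
          intro B hB
          have := key {i, j} R B hRJ.symm hRJ hB
          have e : ∀ T : Finset ι, ({i, j} : Finset ι) ∪ T = insert i (insert j T) := by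
            intro T; ext x
            simp only [Finset.mem_union, Finset.mem_insert, Finset.mem_singleton, or_assoc]
          rwa [e, e] at this)
        (by
          have h1 : (insert i R) ∩ (insert j R) = R := by
            ext x
            simp only [Finset.mem_inter, Finset.mem_insert]
            constructor
            · rintro ⟨h1 | h1, h2 | h2⟩
              · exact absurd (h1.symm.trans h2) hij
              · exact h2
              · exact h1
              · exact h1
            · intro h; exact ⟨Or.inr h, Or.inr h⟩
          have h2 : (insert i R) ∪ (insert j R) = insert i (insert j R) := by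
            ext x
            simp only [Finset.mem_union, Finset.mem_insert]
            tauto
          have := hls (insert i R) (insert j R) (by rw [h1]; exact hRJ)
          rwa [h1, h2] at this)
        (fun D hD hDn => ih D (lt_of_le_of_lt hD hRA) hDn)
        (fun D hD => ih (insert j D) (by
          have hsub : insert j D ⊆ A.erase i := by
            rw [← hinsj]; exact Finset.insert_subset_insert j hD
          exact lt_of_le_of_lt hsub (Finset.erase_ssubset hiA)) (Finset.insert_nonempty j D))
      rwa [hins] at this

end Pool.H248.Sahi
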