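import Mathlib

open Finset

namespace Pool.H248.Sahi

variable {ι : Type*} [DecidableEq ι]

open Classical in
/-- Set partitions of the finite set `D`. -/
noncomputable def parts (D : Finset ι) : Finset (Finset (Finset ι)) :=
  D.powerset.powerset.filter
    (fun P => (∀ B ∈ P, B.Nonempty) ∧ ∀ i ∈ D, ∃! B, B ∈ P ∧ i ∈ B)

/-- Sum over all set partitions of `D` of the product of the weights `g B` of the blocks. -/
noncomputable def W (g : Finset ι → ℝ) (D : Finset ι) : ℝ :=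
  ∑ P ∈ parts D, ∏ B ∈ P, g B


theorem w832_mem (D : Finset ι) (P : Finset (Finset ι)) : P ∈ parts D ↔
    (∀ B ∈ P, B ⊆ D) ∧ (∀ B ∈ P, B.Nonempty) ∧ ∀ i ∈ D, ∃! B, B ∈ P ∧ i ∈ B := by
  classical
  unfold parts
  rw [Finset.mem_filter, Finset.mem_powerset]
  constructor
  · rintro ⟨h1, h2, h3⟩
    exact ⟨fun B hB => Finset.mem_powerset.1 (h1 hB), h2, h3⟩
  · rintro ⟨h1, h2, h3⟩
    exact ⟨fun B hB => Finset.mem_powerset.2 (h1 B hB), h2, h3⟩

theorem w832_notin (R B : Finset ι) (i : ι) (hi : i ∉ R) (P : Finset (Finset ι))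
    (hP : P ∈ parts (R \ B)) : ∀ C ∈ P, i ∉ C := by
  intro C hC hiC
  have h1 := ((w832_mem _ _).1 hP).1 C hC hiC
  exact hi (Finset.mem_sdiff.1 h1).1

theorem w832_notmem (R B : Finset ι) (i : ι) (hi : i ∉ R) (P : Finset (Finset ι))
    (hP : P ∈ parts (R \ B)) : insert i B ∉ P := fun h =>
  w832_notin R B i hi P hP _ h (Finset.mem_insert_self i B)

theorem w832_maps (R B : Finset ι) (i : ι) (hi : i ∉ R) (hB : B ⊆ R) (P : Finset (Finset ι))
    (hP : P ∈ parts (R \ B)) : insert (insert i B) P ∈ parts (insert i R) := by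
  have hni := w832_notin R B i hi P hP
  rw [w832_mem] at hP ⊢
  obtain ⟨h1, h2, h3⟩ := hP
  refine ⟨?_, ?_, ?_⟩
  · intro C hC
    rcases Finset.mem_insert.1 hC with rfl | hC
    · exact Finset.insert_subset_insert i hB
    · exact ((h1 C hC).trans Finset.sdiff_subset).trans (Finset.subset_insert i R)
  · intro C hC
    rcases Finset.mem_insert.1 hC with rfl | hC
    · exact Finset.insert_nonempty i B
    · exact h2 C hC
  · intro j hj
    by_cases hjB : j ∈ insert i B
    · refine ⟨insert i B, ⟨Finset.mem_insert_self _ _, hjB⟩, ?_⟩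
      rintro C ⟨hC, hjC⟩
      rcases Finset.mem_insert.1 hC with rfl | hC2
      · rfl
      · exfalso
        rcases Finset.mem_insert.1 hjB with hji | hjB2
        · rw [hji] at hjC
          exact hni C hC2 hjC
        · exact (Finset.mem_sdiff.1 (h1 C hC2 hjC)).2 hjB2
    · have hji : j ≠ i := fun h => hjB (by rw [h]; exact Finset.mem_insert_self i B)
      have hjR : j ∈ R := (Finset.mem_insert.1 hj).resolve_left hji
      have hjB' : j ∉ B := fun h => hjB (Finset.mem_insert_of_mem h)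
      obtain ⟨C, ⟨hC, hjC⟩, hu⟩ := h3 j (Finset.mem_sdiff.2 ⟨hjR, hjB'⟩)
      refine ⟨C, ⟨Finset.mem_insert_of_mem hC, hjC⟩, ?_⟩
      rintro C' ⟨hC', hjC'⟩
      rcases Finset.mem_insert.1 hC' with rfl | hC'
      · exact absurd hjC' hjB
      · exact hu C' ⟨hC', hjC'⟩

theorem w832_surj (R : Finset ι) (i : ι) (hi : i ∉ R) (Q : Finset (Finset ι))
    (hQ : Q ∈ parts (insert i R)) : ∃ B, B ⊆ R ∧ ∃ P ∈ parts (R \ B), insert (insert i B) P = Q := by
  rw [w832_mem] at hQ
  obtain ⟨h1, h2, h3⟩ := hQ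
  obtain ⟨C, ⟨hC, hiC⟩, hu⟩ := h3 i (Finset.mem_insert_self i R)
  refine ⟨C.erase i, ?_, Q.erase C, ?_, ?_⟩
  · intro j hj
    have hj' := Finset.mem_erase.1 hj
    exact (Finset.mem_insert.1 (h1 C hC hj'.2)).resolve_left hj'.1
  · rw [w832_mem]
    refine ⟨?_, ?_, ?_⟩
    · intro D hD j hjD
      obtain ⟨hDC, hDQ⟩ := Finset.mem_erase.1 hD
      have hji : j ≠ i := by
        rintro rfl
        exact hDC (hu D ⟨hDQ, hjD⟩)
      have hjR : j ∈ R := (Finset.mem_insert.1 (h1 D hDQ hjD)).resolve_left hji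
      refine Finset.mem_sdiff.2 ⟨hjR, fun hjC => ?_⟩
      have hjC' := (Finset.mem_erase.1 hjC).2
      obtain ⟨E, _, hE⟩ := h3 j (Finset.mem_insert_of_mem hjR)
      exact hDC ((hE D ⟨hDQ, hjD⟩).trans (hE C ⟨hC, hjC'⟩).symm)
    · intro D hD
      exact h2 D (Finset.mem_erase.1 hD).2
    · intro j hj
      obtain ⟨hjR, hjC⟩ := Finset.mem_sdiff.1 hj
      have hji : j ≠ i := fun h => hi (h ▸ hjR)
      have hjC' : j ∉ C := fun h => hjC (Finset.mem_erase.2 ⟨hji, h⟩)
      obtain ⟨E, ⟨hEQ, hjE⟩, hE⟩ := h3 j (Finset.mem_insert_of_mem hjR)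
      refine ⟨E, ⟨Finset.mem_erase.2 ⟨fun h => hjC' (h ▸ hjE), hEQ⟩, hjE⟩, ?_⟩
      rintro E' ⟨hE', hjE'⟩
      exact hE E' ⟨(Finset.mem_erase.1 hE').2, hjE'⟩
  · rw [Finset.insert_erase hiC, Finset.insert_erase hC]

theorem W_insert (g : Finset ι → ℝ) (R : Finset ι) (i : ι) (hi : i ∉ R) :
    W g (insert i R) = ∑ B ∈ R.powerset, g (insert i B) * W g (R \ B) := by
  have e : ∑ B ∈ R.powerset, g (insert i B) * W g (R \ B) =
      ∑ x ∈ R.powerset.sigma (fun B => parts (R \ B)), g (insert i x.1) * ∏ C ∈ x.2, g C := by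
    rw [Finset.sum_sigma]
    refine Finset.sum_congr rfl fun B _ => ?_
    unfold W
    rw [Finset.mul_sum]
  rw [e]
  symm
  unfold W
  refine Finset.sum_bij (fun x _ => insert (insert i x.1) x.2) ?_ ?_ ?_ ?_
  · rintro ⟨B, P⟩ hx
    obtain ⟨hB, hP⟩ := Finset.mem_sigma.1 hx
    exact w832_maps R B i hi (Finset.mem_powerset.1 hB) P hP
  · rintro ⟨B, P⟩ hx ⟨B', P'⟩ hx' heq
    obtain ⟨hB, hP⟩ := Finset.mem_sigma.1 hx
    obtain ⟨hB', hP'⟩ := Finset.mem_sigma.1 hx'
    have hB := Finset.mem_powerset.1 hB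
    have hB' := Finset.mem_powerset.1 hB'
    simp only at heq hP hP' hB hB'
    have h1 : insert i B ∈ insert (insert i B') P' := by
      rw [← heq]
      exact Finset.mem_insert_self _ _
    have h2 : insert i B = insert i B' := by
      rcases Finset.mem_insert.1 h1 with h | h
      · exact h
      · exact absurd (Finset.mem_insert_self i B) (w832_notin R B' i hi P' hP' _ h)
    have hiB : i ∉ B := fun h => hi (hB h)
    have hiB' : i ∉ B' := fun h => hi (hB' h)
    have h3 : B = B' := by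
      rw [← Finset.erase_insert hiB, ← Finset.erase_insert hiB', h2]
    subst h3
    have h4 : P = P' := by
      rw [← Finset.erase_insert (w832_notmem R B i hi P hP),
        ← Finset.erase_insert (w832_notmem R B i hi P' hP'), heq]
    subst h4
    rfl
  · intro Q hQ
    obtain ⟨B, hB, P, hP, hBP⟩ := w832_surj R i hi Q hQ
    exact ⟨⟨B, P⟩, Finset.mem_sigma.2 ⟨Finset.mem_powerset.2 hB, hP⟩, hBP⟩
  · rintro ⟨B, P⟩ hx
    obtain ⟨hB, hP⟩ := Finset.mem_sigma.1 hx
    simp only at hP ⊢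
    rw [Finset.prod_insert (w832_notmem R B i hi P hP)]


end Pool.H248.Sahi
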