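import Mathlib

open Finset

namespace Pool.H248.Sahi

/-- Consequence of the four functions theorem: for an FKG weight `μ` and monotone nonnegative `f i`,
if all `f i`, `i ∈ B ∩ C`, are log-supermodular then `r(B) r(C) ≤ r(B ∪ C) r(B ∩ C)` for
`r(B) = Σ_A μ(A) ∏_{i∈B} f_i(A)`. Use `four_functions_theorem_univ`. -/
theorem r_mul_le {m n : ℕ} (μ : Finset (Fin m) → ℝ) (hμ0 : ∀ A, 0 ≤ μ A)
    (hμ : ∀ A B, μ A * μ B ≤ μ (A ∩ B) * μ (A ∪ B))
    (f : Fin n → Finset (Fin m) → ℝ) (hf0 : ∀ i A, 0 ≤ f i A) (hf : ∀ i, Monotone (f i))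
    (B C : Finset (Fin n))
    (hls : ∀ i ∈ B ∩ C, ∀ A A', μ A ≠ 0 → μ A' ≠ 0 →
      f i A * f i A' ≤ f i (A ∩ A') * f i (A ∪ A')) :
    (∑ A, μ A * ∏ i ∈ B, f i A) * (∑ A, μ A * ∏ i ∈ C, f i A) ≤
      (∑ A, μ A * ∏ i ∈ B ∪ C, f i A) * (∑ A, μ A * ∏ i ∈ B ∩ C, f i A) := by
  have hp : ∀ (S : Finset (Fin n)) (A : Finset (Fin m)), 0 ≤ ∏ i ∈ S, f i A := fun S A =>
    Finset.prod_nonneg fun i _ => hf0 i A
  have hn : ∀ S : Finset (Fin n), 0 ≤ fun A => μ A * ∏ i ∈ S, f i A := fun S A =>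
    mul_nonneg (hμ0 A) (hp S A)
  have key := four_functions_theorem_univ (fun A => μ A * ∏ i ∈ B, f i A)
    (fun A => μ A * ∏ i ∈ C, f i A) (fun A => μ A * ∏ i ∈ B ∩ C, f i A)
    (fun A => μ A * ∏ i ∈ B ∪ C, f i A) (hn B) (hn C) (hn (B ∩ C)) (hn (B ∪ C)) (by
      intro A A'
      show (μ A * ∏ i ∈ B, f i A) * (μ A' * ∏ i ∈ C, f i A') ≤
        (μ (A ∩ A') * ∏ i ∈ B ∩ C, f i (A ∩ A')) * (μ (A ∪ A') * ∏ i ∈ B ∪ C, f i (A ∪ A'))
      have hR : 0 ≤ (μ (A ∩ A') * ∏ i ∈ B ∩ C, f i (A ∩ A')) *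
          (μ (A ∪ A') * ∏ i ∈ B ∪ C, f i (A ∪ A')) :=
        mul_nonneg (mul_nonneg (hμ0 _) (hp _ _)) (mul_nonneg (hμ0 _) (hp _ _))
      by_cases hA0 : μ A = 0
      · rw [hA0, zero_mul, zero_mul]; exact hR
      by_cases hA0' : μ A' = 0
      · rw [hA0', zero_mul, mul_zero]; exact hR
      clear hR
      have e1 : ∏ i ∈ B, f i A = (∏ i ∈ B ∩ C, f i A) * ∏ i ∈ B \ C, f i A :=
        (Finset.prod_inter_mul_prod_sdiff B C (fun i => f i A)).symm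
      have e2 : ∏ i ∈ C, f i A' = (∏ i ∈ B ∩ C, f i A') * ∏ i ∈ C \ B, f i A' := by
        rw [Finset.inter_comm B C]
        exact (Finset.prod_inter_mul_prod_sdiff C B (fun i => f i A')).symm
      have e3 : ∏ i ∈ B ∪ C, f i (A ∪ A') = (∏ i ∈ B \ C, f i (A ∪ A')) *
          ((∏ i ∈ B ∩ C, f i (A ∪ A')) * ∏ i ∈ C \ B, f i (A ∪ A')) := by
        rw [← Finset.sdiff_union_self_eq_union, Finset.prod_union Finset.sdiff_disjoint,
          Finset.inter_comm B C]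
        congr 1
        exact (Finset.prod_inter_mul_prod_sdiff C B (fun i => f i (A ∪ A'))).symm
      have i1 : ∏ i ∈ B \ C, f i A ≤ ∏ i ∈ B \ C, f i (A ∪ A') :=
        Finset.prod_le_prod (fun i _ => hf0 i A) (fun i _ => hf i Finset.subset_union_left)
      have i2 : ∏ i ∈ C \ B, f i A' ≤ ∏ i ∈ C \ B, f i (A ∪ A') :=
        Finset.prod_le_prod (fun i _ => hf0 i A') (fun i _ => hf i Finset.subset_union_right)
      have i3 : (∏ i ∈ B ∩ C, f i A) * (∏ i ∈ B ∩ C, f i A') ≤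
          (∏ i ∈ B ∩ C, f i (A ∩ A')) * (∏ i ∈ B ∩ C, f i (A ∪ A')) := by
        rw [← Finset.prod_mul_distrib, ← Finset.prod_mul_distrib]
        exact Finset.prod_le_prod (fun i _ => mul_nonneg (hf0 i A) (hf0 i A'))
          (fun i hi => hls i hi A A' hA0 hA0')
      rw [e1, e2, e3]
      calc (μ A * ((∏ i ∈ B ∩ C, f i A) * ∏ i ∈ B \ C, f i A)) *
            (μ A' * ((∏ i ∈ B ∩ C, f i A') * ∏ i ∈ C \ B, f i A'))
          = (μ A * μ A') * (((∏ i ∈ B ∩ C, f i A) * (∏ i ∈ B ∩ C, f i A')) *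
              ((∏ i ∈ B \ C, f i A) * ∏ i ∈ C \ B, f i A')) := by ring
        _ ≤ (μ (A ∩ A') * μ (A ∪ A')) *
              (((∏ i ∈ B ∩ C, f i (A ∩ A')) * (∏ i ∈ B ∩ C, f i (A ∪ A'))) *
              ((∏ i ∈ B \ C, f i (A ∪ A')) * ∏ i ∈ C \ B, f i (A ∪ A'))) := by
            apply mul_le_mul (hμ A A')
            · apply mul_le_mul i3
              · exact mul_le_mul i1 i2 (hp _ _) (hp _ _)
              · exact mul_nonneg (hp _ _) (hp _ _)
              · exact mul_nonneg (hp _ _) (hp _ _)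
            · exact mul_nonneg (mul_nonneg (hp _ _) (hp _ _)) (mul_nonneg (hp _ _) (hp _ _))
            · exact mul_nonneg (hμ0 _) (hμ0 _)
        _ = _ := by ring)
  rw [mul_comm (∑ A, μ A * ∏ i ∈ B ∪ C, f i A)]
  exact key

/-- Adding a constant keeps log-supermodularity of a nonnegative monotone function. -/
theorem lsm_add_const {m : ℕ} (g : Finset (Fin m) → ℝ) (hg0 : ∀ A, 0 ≤ g A) (hg : Monotone g)
    (ε : ℝ) (hε : 0 ≤ ε) (A A' : Finset (Fin m))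
    (h1 : g A * g A' ≤ g (A ∩ A') * g (A ∪ A')) :
    (g A + ε) * (g A' + ε) ≤ (g (A ∩ A') + ε) * (g (A ∪ A') + ε) := by
  have h2 : g A ≤ g (A ∪ A') := hg Finset.subset_union_left
  have h3 : g A' ≤ g (A ∪ A') := hg Finset.subset_union_right
  have h4 := hg0 (A ∩ A')
  have h5 := hg0 A
  have h6 := hg0 A'
  have h7 := hg0 (A ∪ A')
  have h8 : g A + g A' ≤ g (A ∩ A') + g (A ∪ A') := by
    rcases h7.eq_or_lt with h0 | h0
    · rw [← h0] at h2 h3 ⊢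
      linarith
    · have h9 : 0 ≤ (g (A ∪ A') - g A) * (g (A ∪ A') - g A') :=
        mul_nonneg (by linarith) (by linarith)
      by_contra hcon
      push Not at hcon
      have h10 := mul_lt_mul_of_pos_right hcon h0
      nlinarith
  nlinarith [mul_le_mul_of_nonneg_left h8 hε]

/-- If a continuous function of `ε` is nonpositive for all `ε > 0`, it is at `0`; applied to the
partition polynomial. -/
theorem limit_step {m n : ℕ} (μ : Finset (Fin m) → ℝ) (f : Fin n → Finset (Fin m) → ℝ)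
    (S : Finset (Finset (Finset (Fin n))))
    (h : ∀ ε : ℝ, 0 < ε → 0 ≤ ∑ P ∈ S, (-1 : ℝ) ^ (P.card + 1) *
      ∏ B ∈ P, (((B.card - 1).factorial : ℝ) * ∑ A, μ A * ∏ i ∈ B, (f i A + ε))) :
    0 ≤ ∑ P ∈ S, (-1 : ℝ) ^ (P.card + 1) *
      ∏ B ∈ P, (((B.card - 1).factorial : ℝ) * ∑ A, μ A * ∏ i ∈ B, f i A) := by
  have hc : Continuous (fun ε : ℝ => ∑ P ∈ S, (-1 : ℝ) ^ (P.card + 1) *
      ∏ B ∈ P, (((B.card - 1).factorial : ℝ) * ∑ A, μ A * ∏ i ∈ B, (f i A + ε))) := by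
    fun_prop
  have h1 := (hc.tendsto 0).mono_left (nhdsWithin_le_nhds (s := Set.Ioi (0 : ℝ)))
  have h2 := ge_of_tendsto h1 (by
    filter_upwards [self_mem_nhdsWithin] with ε hε
    exact h ε hε)
  simpa only [add_zero] using h2

end Pool.H248.Sahi
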