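import Mathlib

open Finset Classical

namespace Pool.H248.Sahi

/-- The partition sum `E_n(f)`. -/
noncomputable def En {m n : ℕ} (μ : Finset (Fin m) → ℝ) (f : Fin n → Finset (Fin m) → ℝ) : ℝ :=
  ∑ P ∈ (Finset.univ : Finset (Finset (Finset (Fin n)))).filter
              (fun P => (∀ B ∈ P, B.Nonempty) ∧ ∀ i : Fin n, ∃! B, B ∈ P ∧ i ∈ B),
            (-1 : ℝ) ^ (P.card + 1) *
              ∏ B ∈ P, (((B.card - 1).factorial : ℝ) * ∑ A, μ A * ∏ i ∈ B, f i A)

theorem prod_update352 {m n : ℕ} (μ : Finset (Fin m) → ℝ) (f : Fin n → Finset (Fin m) → ℝ)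
    (i : Fin n) (P : Finset (Finset (Fin n))) (B0 : Finset (Fin n)) (hB0 : B0 ∈ P) (hi : i ∈ B0)
    (hu : ∀ B ∈ P, i ∈ B → B = B0) (k : Finset (Fin m) → ℝ) :
    (∏ B ∈ P, (((B.card - 1).factorial : ℝ) * ∑ A, μ A * ∏ j ∈ B, Function.update f i k j A)) =
      (((B0.card - 1).factorial : ℝ) * ∑ A, μ A * (k A * ∏ j ∈ B0.erase i, f j A)) *
        ∏ B ∈ P.erase B0, (((B.card - 1).factorial : ℝ) * ∑ A, μ A * ∏ j ∈ B, f j A) := by
  rw [← Finset.mul_prod_erase P _ hB0]
  congr 1
  · congr 1
    refine Finset.sum_congr rfl fun A _ => ?_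
    rw [← Finset.mul_prod_erase B0 _ hi, Function.update_self]
    congr 2
    refine Finset.prod_congr rfl fun j hj => ?_
    rw [Function.update_of_ne (Finset.ne_of_mem_erase hj)]
  · refine Finset.prod_congr rfl fun B hB => ?_
    have hiB : i ∉ B := fun h =>
      (Finset.ne_of_mem_erase hB) (hu B (Finset.mem_of_mem_erase hB) h)
    congr 1
    refine Finset.sum_congr rfl fun A _ => ?_
    congr 1
    refine Finset.prod_congr rfl fun j hj => ?_
    rw [Function.update_of_ne]
    rintro rfl
    exact hiB hj

/-- Additivity of `E_n` in each slot (each partition has exactly one block containing `i`). -/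
theorem En_update_add {m n : ℕ} (μ : Finset (Fin m) → ℝ) (f : Fin n → Finset (Fin m) → ℝ)
    (i : Fin n) (g h : Finset (Fin m) → ℝ) :
    En μ (Function.update f i (fun A => g A + h A)) =
      En μ (Function.update f i g) + En μ (Function.update f i h) := by
  unfold En
  rw [← Finset.sum_add_distrib]
  refine Finset.sum_congr rfl fun P hP => ?_
  obtain ⟨B0, ⟨hB0, hi⟩, hu⟩ := (Finset.mem_filter.1 hP).2.2 i
  have hu' : ∀ B ∈ P, i ∈ B → B = B0 := fun B hB hiB => hu B ⟨hB, hiB⟩
  rw [prod_update352 μ f i P B0 hB0 hi hu', prod_update352 μ f i P B0 hB0 hi hu',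
    prod_update352 μ f i P B0 hB0 hi hu']
  have hs : ∑ A, μ A * ((g A + h A) * ∏ j ∈ B0.erase i, f j A) =
      ∑ A, μ A * (g A * ∏ j ∈ B0.erase i, f j A) +
        ∑ A, μ A * (h A * ∏ j ∈ B0.erase i, f j A) := by
    rw [← Finset.sum_add_distrib]
    exact Finset.sum_congr rfl fun A _ => by ring
  rw [hs]
  ring

theorem En_update_zero {m n : ℕ} (μ : Finset (Fin m) → ℝ) (f : Fin n → Finset (Fin m) → ℝ)
    (i : Fin n) :
    En μ (Function.update f i (fun _ => 0)) = 0 := by
  unfold En
  refine Finset.sum_eq_zero fun P hP => ?_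
  obtain ⟨B0, ⟨hB0, hi⟩, hu⟩ := (Finset.mem_filter.1 hP).2.2 i
  have hu' : ∀ B ∈ P, i ∈ B → B = B0 := fun B hB hiB => hu B ⟨hB, hiB⟩
  rw [prod_update352 μ f i P B0 hB0 hi hu']
  simp

/-- Expanding sums of good functions in the slots outside `J`. -/
theorem expand {m n : ℕ} (μ : Finset (Fin m) → ℝ) (J : Finset (Fin n))
    (Good Any : (Finset (Fin m) → ℝ) → Prop)
    (hGA : ∀ g, Good g → Any g)
    (hsumAny : ∀ (k : ℕ) (g : Fin k → Finset (Fin m) → ℝ), (∀ j, Good (g j)) →
      Any (fun A => ∑ j, g j A))
    (hadd : ∀ (f : Fin n → Finset (Fin m) → ℝ) (i : Fin n) (g h : Finset (Fin m) → ℝ),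
      En μ (Function.update f i (fun A => g A + h A)) =
      En μ (Function.update f i g) + En μ (Function.update f i h))
    (hzero : ∀ (f : Fin n → Finset (Fin m) → ℝ) (i : Fin n),
      En μ (Function.update f i (fun _ => 0)) = 0)
    (hgood : ∀ f : Fin n → Finset (Fin m) → ℝ, (∀ i, Any (f i)) → (∀ i, i ∉ J → Good (f i)) →
      0 ≤ En μ f)
    (f : Fin n → Finset (Fin m) → ℝ) (hf : ∀ i, Any (f i))
    (hfJ : ∀ i, i ∉ J → ∃ (k : ℕ) (g : Fin k → Finset (Fin m) → ℝ), (∀ j, Good (g j)) ∧
      f i = fun A => ∑ j, g j A) :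
    0 ≤ En μ f := by
  have main : ∀ (T : Finset (Fin n)) (f : Fin n → Finset (Fin m) → ℝ), (∀ i, Any (f i)) →
      (∀ i, i ∉ J → i ∉ T → Good (f i)) →
      (∀ i ∈ T, ∃ (k : ℕ) (g : Fin k → Finset (Fin m) → ℝ), (∀ j, Good (g j)) ∧
        f i = fun A => ∑ j, g j A) → 0 ≤ En μ f := by
    intro T
    induction T using Finset.induction_on with
    | empty =>
      intro f hf h1 _
      exact hgood f hf fun i hi => h1 i hi (Finset.notMem_empty i)
    | insert a T ha ih =>
      intro f hf h1 h2
      have hk : ∀ (k : ℕ) (g : Fin k → Finset (Fin m) → ℝ), (∀ j, Good (g j)) →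
          0 ≤ En μ (Function.update f a (fun A => ∑ j, g j A)) := by
        intro k
        induction k with
        | zero =>
          intro g _
          have : (fun A : Finset (Fin m) => ∑ j : Fin 0, g j A) = fun _ => 0 := by
            funext A; simp
          rw [this, hzero]
        | succ k ihk =>
          intro g hg
          have : (fun A : Finset (Fin m) => ∑ j : Fin (k + 1), g j A) =
              fun A => (fun A => ∑ j : Fin k, g j.castSucc A) A + g (Fin.last k) A := by
            funext A; rw [Fin.sum_univ_castSucc]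
          rw [this, hadd]
          refine add_nonneg (ihk _ fun j => hg _) (ih _ ?_ ?_ ?_)
          · intro i
            by_cases hia : i = a
            · rw [hia, Function.update_self]
              exact hGA _ (hg _)
            · rw [Function.update_of_ne hia]
              exact hf i
          · intro i hiJ hiT
            by_cases hia : i = a
            · rw [hia, Function.update_self]
              exact hg _
            · rw [Function.update_of_ne hia]
              exact h1 i hiJ fun h => by
                rcases Finset.mem_insert.1 h with h | h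
                · exact hia h
                · exact hiT h
          · intro i hi
            have hia : i ≠ a := fun h => ha (h ▸ hi)
            rw [Function.update_of_ne hia]
            exact h2 i (Finset.mem_insert_of_mem hi)
      obtain ⟨k, g, hg, he⟩ := h2 a (Finset.mem_insert_self a T)
      have := hk k g hg
      rw [← he, Function.update_eq_self] at this
      exact this
  refine main (Finset.univ.filter fun i => i ∉ J) f hf ?_ ?_
  · intro i hi hi'
    exact (hi' (Finset.mem_filter.2 ⟨Finset.mem_univ i, hi⟩)).elim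
  · intro i hi
    exact hfJ i (Finset.mem_filter.1 hi).2

end Pool.H248.Sahi
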