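import Mathlib
import Pool.Agent.H248.Sahi.L1
import Pool.Agent.H248.Sahi.L4
import Pool.Agent.H248.Sahi.L5
import Pool.Agent.H248.Sahi.Core

open Finset

namespace Pool.H248.Sahi

section gen
variable {ι : Type*} [DecidableEq ι]

theorem parts_empty : parts (∅ : Finset ι) = {∅} := by
  ext P
  simp only [parts, Finset.mem_filter, Finset.mem_powerset, Finset.mem_singleton,
    Finset.powerset_empty]
  constructor
  · rintro ⟨h1, h2, -⟩
    rw [Finset.eq_empty_iff_forall_notMem]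
    intro B hB
    have := h1 hB
    rw [Finset.mem_singleton] at this
    have h3 := h2 B hB
    rw [this] at h3
    exact absurd h3 (by simp)
  · rintro rfl
    simp

theorem W_empty (g : Finset ι → ℝ) : W g ∅ = 1 := by
  rw [W, parts_empty]; simp

theorem W_rec (r : Finset ι → ℝ) (R : Finset ι) (i : ι) (hi : i ∉ R) :
    W (fun B => -(((B.card - 1).factorial : ℝ) * r B)) (insert i R) =
      - ∑ B ∈ R.powerset, ((B.card).factorial : ℝ) * r (insert i B) *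
        W (fun B => -(((B.card - 1).factorial : ℝ) * r B)) (R \ B) := by
  rw [W_insert _ R i hi, ← Finset.sum_neg_distrib]
  refine Finset.sum_congr rfl fun B hB => ?_
  have hiB : i ∉ B := fun h => hi (Finset.mem_powerset.1 hB h)
  rw [Finset.card_insert_of_notMem hiB, Nat.add_sub_cancel]
  ring

end gen

section main

variable {m n : ℕ}

/-- The moments `r(B) = Σ_A μ(A) ∏_{i∈B} f_i(A)`. -/
noncomputable def mom (μ : Finset (Fin m) → ℝ) (f : Fin n → Finset (Fin m) → ℝ)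
    (B : Finset (Fin n)) : ℝ := ∑ A, μ A * ∏ i ∈ B, f i A

theorem En_eq (μ : Finset (Fin m) → ℝ) (f : Fin n → Finset (Fin m) → ℝ) :
    En μ f = - W (fun B => -(((B.card - 1).factorial : ℝ) * mom μ f B)) Finset.univ := by
  classical
  rw [En, W, ← Finset.sum_neg_distrib]
  refine Finset.sum_congr ?_ ?_
  · ext P
    simp [parts]
  · intro P _
    rw [Finset.prod_neg, pow_succ]
    simp only [mom]
    ring

theorem mom_empty (μ : Finset (Fin m) → ℝ) (hμ1 : ∑ A, μ A = 1)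
    (f : Fin n → Finset (Fin m) → ℝ) : mom μ f ∅ = 1 := by
  simp [mom, hμ1]

theorem mom_pos (μ : Finset (Fin m) → ℝ) (hμ0 : ∀ A, 0 ≤ μ A) (hμ1 : ∑ A, μ A = 1)
    (f : Fin n → Finset (Fin m) → ℝ) (hf : ∀ i A, 0 < f i A) (B : Finset (Fin n)) :
    0 < mom μ f B := by
  obtain ⟨A, hA⟩ : ∃ A, 0 < μ A := by
    by_contra h
    push Not at h
    have : ∑ A, μ A ≤ 0 := Finset.sum_nonpos fun A _ => h A
    rw [hμ1] at this
    linarith
  refine Finset.sum_pos' (fun A _ => mul_nonneg (hμ0 A)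
    (Finset.prod_nonneg fun i _ => (hf i A).le)) ⟨A, Finset.mem_univ _, mul_pos hA
    (Finset.prod_pos fun i _ => hf i A)⟩

theorem En_nonneg_of_pos (hn : 1 ≤ n) (μ : Finset (Fin m) → ℝ) (hμ0 : ∀ A, 0 ≤ μ A)
    (hμ1 : ∑ A, μ A = 1) (hμ : ∀ A B, μ A * μ B ≤ μ (A ∩ B) * μ (A ∪ B))
    (f : Fin n → Finset (Fin m) → ℝ) (hf0 : ∀ i A, 0 < f i A) (hf : ∀ i, Monotone (f i))
    (J : Finset (Fin n)) (hJ : J.card ≤ 2)
    (hls : ∀ i, i ∉ J → ∀ A A', μ A ≠ 0 → μ A' ≠ 0 →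
      f i A * f i A' ≤ f i (A ∩ A') * f i (A ∪ A')) :
    0 ≤ En μ f := by
  rw [En_eq, neg_nonneg]
  refine core (mom μ f) _ (mom_empty μ hμ1 f) (mom_pos μ hμ0 hμ1 f hf0) (W_empty _)
    (fun R i hi => W_rec _ R i hi) J hJ ?_ Finset.univ ?_
  · intro B C hBC
    exact r_mul_le μ hμ0 hμ f (fun i A => (hf0 i A).le) hf B C
      (fun i hi => hls i (fun hiJ => (Finset.disjoint_left.1 hBC) hi hiJ))
  · exact ⟨⟨0, hn⟩, Finset.mem_univ _⟩

theorem En_nonneg_of_lsm (hn : 1 ≤ n) (μ : Finset (Fin m) → ℝ) (hμ0 : ∀ A, 0 ≤ μ A)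
    (hμ1 : ∑ A, μ A = 1) (hμ : ∀ A B, μ A * μ B ≤ μ (A ∩ B) * μ (A ∪ B))
    (f : Fin n → Finset (Fin m) → ℝ) (hf0 : ∀ i A, 0 ≤ f i A) (hf : ∀ i, Monotone (f i))
    (J : Finset (Fin n)) (hJ : J.card ≤ 2)
    (hls : ∀ i, i ∉ J → ∀ A A', μ A ≠ 0 → μ A' ≠ 0 →
      f i A * f i A' ≤ f i (A ∩ A') * f i (A ∪ A')) :
    0 ≤ En μ f := by
  refine limit_step μ f _ fun ε hε => ?_
  exact En_nonneg_of_pos hn μ hμ0 hμ1 hμ (fun i A => f i A + ε)
    (fun i A => add_pos_of_nonneg_of_pos (hf0 i A) hε)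
    (fun i A A' h => add_le_add_left (hf i h) ε) J hJ
    (fun i hi A A' hA hA' => lsm_add_const (f i) (hf0 i) (hf i) ε hε.le A A'
      (hls i hi A A' hA hA'))

theorem En_nonneg (hn : 1 ≤ n) (μ : Finset (Fin m) → ℝ) (hμ0 : ∀ A, 0 ≤ μ A)
    (hμ1 : ∑ A, μ A = 1) (hμ : ∀ A B, μ A * μ B ≤ μ (A ∩ B) * μ (A ∪ B))
    (f : Fin n → Finset (Fin m) → ℝ) (hf0 : ∀ i A, 0 ≤ f i A) (hf : ∀ i, Monotone (f i))
    (J : Finset (Fin n)) (hJ : J.card ≤ 2)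
    (hls : ∀ i, i ∉ J → ∃ (k : ℕ) (g : Fin k → Finset (Fin m) → ℝ),
      (∀ j A, 0 ≤ g j A) ∧ (∀ j, Monotone (g j)) ∧
      (∀ j A B, μ A ≠ 0 → μ B ≠ 0 → g j A * g j B ≤ g j (A ∩ B) * g j (A ∪ B)) ∧
      ∀ A, f i A = ∑ j, g j A) :
    0 ≤ En μ f := by
  refine expand μ J
    (fun g => (∀ A, 0 ≤ g A) ∧ Monotone g ∧
      ∀ A B, μ A ≠ 0 → μ B ≠ 0 → g A * g B ≤ g (A ∩ B) * g (A ∪ B))
    (fun g => (∀ A, 0 ≤ g A) ∧ Monotone g) (fun g hg => ⟨hg.1, hg.2.1⟩) ?_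
    (En_update_add μ) (En_update_zero μ) ?_ f (fun i => ⟨hf0 i, hf i⟩) ?_
  · intro k g hg
    exact ⟨fun A => Finset.sum_nonneg fun j _ => (hg j).1 A,
      fun A B h => Finset.sum_le_sum fun j _ => (hg j).2.1 h⟩
  · intro f hf hfJ
    exact En_nonneg_of_lsm hn μ hμ0 hμ1 hμ f (fun i => (hf i).1) (fun i => (hf i).2) J hJ
      (fun i hi => (hfJ i hi).2.2)
  · intro i hi
    obtain ⟨k, g, h1, h2, h3, h4⟩ := hls i hi
    exact ⟨k, g, fun j => ⟨h1 j, h2 j, h3 j⟩, funext h4⟩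

end main

end Pool.H248.Sahi
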